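import Pool.Agent.H81.RZ.Kr
import Pool.Agent.H51.KG.Low
import Pool.Agent.H55.TH.Ksm
import Pool.Graph.R_pool_sql_team_seeded_1acbe0a2.Y691.TU.Sem
import Pool.Graph.R_pool_sql_team_seeded_1acbe0a2.Y691.TU.Main

/-!
# The semisimplicity conjecture and the Kirchhoff polynomials of graphs of maximal degree three

Let `p` be a prime number. A smooth projective variety over a number field is a smooth projective scheme
over `ℚ`, and its cohomology as a representation of the absolute Galois group of `ℚ` is induced; so
question Q1 for all number fields is the question for `ℚ`.

Let `C` be the category of motives over `ℚ` for absolute Hodge cycles, which is abelian and semisimple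
(Deligne), and `F` its `p`-adic realisation, with values in the representations over `Ω = ℚ_p` of the
absolute Galois group `G` of `ℚ`. For a separated scheme `X` of finite type over `ℚ` let
`D.H X w j = gr^W_w H^j_c(X)`, an object of `C` (Deligne, Jannsen). For smooth projective `X` this is
`H^j(X)` for `w = j` and zero for `w ≠ j`.

The Kirchhoff polynomial of a finite graph `G` is `Ψ_G = ∑_T ∏_{e ∈ T} x_e`, the sum over the spanning
trees of `G`. All graphs are simple. A graph is split, if its vertices are the disjoint union of an
independent set and a clique.

**Theorem.** The following are equivalent: the representations `gr^W_w H^j_c(X)` are semisimple for all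
separated schemes `X` of finite type over `ℚ`; they are semisimple for the hypersurfaces `Ψ_G = 0` of all
graphs `G` whose vertices have at most three neighbours; they are semisimple for the smooth affine
varieties `Ψ_G ≠ 0` of all these graphs; the same for all split graphs. Then the cohomology of all smooth
projective varieties is semisimple (question Q1 for `p`); the converse is true by resolution of
singularities.

The bound three is optimal: for the graphs `G` whose vertices have at most two neighbours the
representations `gr^W_w H^j_c(X)` are semisimple for `X : Ψ_G = 0` and for `X : Ψ_G ≠ 0` (unconditionally). The same is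
true for the split graphs whose independent set has at most two vertices or whose clique has at most three
vertices, for instance for all complete graphs.

The universality for all graphs (for classes in a localised Grothendieck ring) is a theorem of Belkale and
Brosnan, whose graphs have vertices of arbitrarily large degree. The degrees are made small as follows. Let
`v` be a vertex of `G` with at least four neighbours, and let `G'` be the graph in which `v` is
split into a vertex with two of the neighbours and a vertex with the others, joined by a new edge `e`, and
`G''` the graph in which `e` is subdivided. With `A = Ψ_G` and `B = Ψ_{G' - e}` we have `Ψ_{G'} = A x + B` and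
`Ψ_{G''} = A x y + B (x + y)`. So `{Ψ_{G'} ≠ 0}` consists of `{B ≠ 0}` and of `{A + B s ≠ 0, s ≠ 0}`, and
`{Ψ_{G''} ≠ 0}` of two copies of `{B ≠ 0} × 𝔾_m` and of `{A + B (s + t) ≠ 0, s ≠ 0, t ≠ 0}`. The last
one together with `{A + B s ≠ 0, s ≠ 0}` (for `t = 0`) is `{A + B s ≠ 0} × 𝔾_m`, and `{A + B s ≠ 0}`
consists of `{A + B s ≠ 0, s ≠ 0}` and of `{A ≠ 0}`, the complement of `Ψ_G = 0`. The graphs `G'`, `G''` and
`G' - e` have a smaller sum of the numbers `deg - 3`, `deg > 3`.
-/

set_option autoImplicit false

open CategoryTheory CategoryTheory.Limits AlgebraicGeometry Pool.Agent.Y116.UV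
  Pool.Agent.Y101.Th Pool.Agent.Y691.TU Pool.Agent.Z125.UN Pool.Agent.H81.RZ Pool.Agent.H51.KG
  Pool.Agent.H55.TH

namespace Pool.Agent.Results.MP_8f1292_ag.KirchhoffHypersurfaces

universe v u w

/-- The realisations of the pieces `gr^W_w H^j_c(X)` are semisimple for all `w` and `j`. -/
def AllPieces {C : Type u} [Category.{v} C] (D : Graded ℚ C) {Ω G : Type} [Field Ω] [Group G]
    (F : Realisation.{v, u, w} C Ω G) (X : Sch ℚ) : Prop :=
  ∀ w j, IsSemisimpleModule (MonoidAlgebra Ω G) (F.obj (D.H X w j))

/-- The cohomology of all smooth projective schemes over `ℚ` is semisimple. -/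
def Question {C : Type u} [Category.{v} C] (D : Graded ℚ C) {Ω G : Type} [Field Ω] [Group G]
    (F : Realisation.{v, u, w} C Ω G) : Prop :=
  ∀ X : Sch ℚ, SmProj X → ∀ i, IsSemisimpleModule (MonoidAlgebra Ω G) (F.obj (D.H X i i))

/-- **The semisimplicity conjecture and the Kirchhoff polynomials of graphs.** See the
explanations above; `unit` is the trivial case of the unit motive. -/
theorem result {C : Type u} [Category.{v} C] [Abelian C] {D : Graded ℚ C} {Ω G : Type} [Field Ω]
    [Group G] (F : Realisation.{v, u, w} C Ω G) [F.Additive] (hC : Semisimple C) (hD : IsGraded D)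
    (hF : TwistLattice F D.L) (unit : IsSemisimpleModule (MonoidAlgebra Ω G) (F.obj D.one)) :
    -- graphs whose vertices have at most three neighbours
    (OnDegree 3 (AllPieces D F) ↔ OnAll True (AllPieces D F)) ∧
    (OffDegree 3 (AllPieces D F) ↔ OnAll True (AllPieces D F)) ∧
    -- unconditionally: at most two neighbours, and split graphs with a small part
    OnDegree 2 (AllPieces D F) ∧ OffDegree 2 (AllPieces D F) ∧ OnSmallKirchhoff (AllPieces D F) ∧
    -- split graphs
    (OnKirchhoff (AllPieces D F) ↔ OnAll True (AllPieces D F)) ∧
    (OffKirchhoff (AllPieces D F) ↔ OnAll True (AllPieces D F)) ∧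
    -- smooth projective varieties
    (OnAll True (AllPieces D F) → Question D F) ∧
    (Resolution ℚ → Question D F → OnAll True (AllPieces D F)) := by
  have hQ := stable_semi F hF unit
  have hP : Bnd True (AllPieces D F) := bnd_pieces hC hD hQ
  refine ⟨(all_onDegree_iff Pool.Agent.Q193.LT.frac_rat hP).symm,
    (all_offDegree_iff Pool.Agent.Q193.LT.frac_rat hP).symm, on_two hP.toUni, off_two hP.toUni,
    small_of_bnd hP (pieces_point hD hQ),
    (all_kirchhoff_iff Pool.Agent.Q193.LT.frac_rat hP).symm,
    (all_offKirchhoff_iff Pool.Agent.Q193.LT.frac_rat hP).symm, fun h X hX i => h X hX.ft i i,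
    fun hk h X hX => ?_⟩
  exact (gen_all hP.toUni).mpr (fun a b c t w j => (cubic_all hk hC hD hQ).mp h a b c t w j) X hX

end Pool.Agent.Results.MP_8f1292_ag.KirchhoffHypersurfaces
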