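import Pool.Agent.H55.TH.Rank
import Pool.Agent.H51.TH.Spaces
import Pool.Graph.R_pool_sql_team_seeded_1acbe0a2.Y691.TU.Sem

/-!
# The semisimplicity conjecture in one degree and matrices with prescribed zeros: rank two and three

Let `p` be a prime number. A smooth projective variety over a number field is a smooth projective scheme
over `ℚ`, and its cohomology as a representation of the absolute Galois group of `ℚ` is induced; so
question Q1 for all number fields is the question for `ℚ`.

Let `C` be the category of motives over `ℚ` for absolute Hodge cycles, which is abelian and semisimple
(Deligne), and `F` its `p`-adic realisation, with values in the representations over `Ω = ℚ_p` of the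
absolute Galois group `G` of `ℚ`. For a separated scheme `X` of finite type over `ℚ` let
`D.H X w j = gr^W_w H^j_c(X)`, an object of `C` (Deligne, Jannsen). For smooth projective `X` this is
`H^j(X)` for `w = j` and zero for `w ≠ j`.

For `r ∈ ℕ` consider the affine schemes over `ℚ` of the `m × n` matrices of rank at most `r` whose entries
at the places of a set `Z` are zero, for all `m`, `n` and `Z`.

**Theorem.** (1) If `r ≤ 2`, then the representations `gr^W_w H^j_c(X)` are semisimple for all these
schemes `X` and all `w` and `j`. (2) Let `w` be an integer and `r ≥ 3`, for instance `r = 3`. The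
following are equivalent: the representations `gr^W_w H^j_c(X)` of the one weight `w` are semisimple for
all `j` and all separated schemes `X` of finite type over `ℚ`; they are semisimple for all `j` and the
schemes `X` of matrices of rank at most `r` with prescribed zeros. Then the cohomology `H^w(X)` of the one degree `w` is semisimple for all smooth projective varieties `X`;
the converse is true by resolution of singularities, used in the form `Devissage`.

In (2) neither the Tate twist nor the cohomology of affine bundles is used, and so the degree `w` is fixed
in all the statements. (1) is proved by cutting along the entries and the `2 × 2` minors: the parts are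
configurations of vectors in the plane with prescribed parallel pairs, and these are built one coordinate
at a time (`Pool.Agent.H55.TH.elim_add`); it uses that the realisation of the unit motive is semisimple
and that the Tate twist does not change the subrepresentations (`TwistLattice`).
-/

set_option autoImplicit false

open CategoryTheory CategoryTheory.Limits AlgebraicGeometry Pool.Agent.Y116.UV
  Pool.Agent.Y101.Th Pool.Agent.Y691.TU Pool.Agent.Z125.UN Pool.Agent.H81.RZ

namespace Pool.Agent.Results.MP_8f1292_ag.RankThreeMatrices

universe v u w'

/-- The realisation of the motive `A` is semisimple. -/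
def Semi {C : Type u} [Category.{v} C] {Ω G : Type} [Field Ω] [Group G]
    (F : Realisation.{v, u, w'} C Ω G) (A : C) : Prop :=
  IsSemisimpleModule (MonoidAlgebra Ω G) (F.obj A)

/-- The cohomology of degree `w` of all smooth projective schemes over `ℚ` is semisimple. -/
def QuestionIn {C : Type u} [Category.{v} C] (D : Graded ℚ C) {Ω G : Type} [Field Ω] [Group G]
    (F : Realisation.{v, u, w'} C Ω G) (w : ℤ) : Prop :=
  ∀ X : Sch ℚ, SmProj X → Semi F (D.H X w w)

/-- **The semisimplicity conjecture and matrices with prescribed zeros: rank at most two and rank at most
`r ≥ 3`.** See the explanations above; `unit` is the trivial case of the unit motive. -/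
theorem result {C : Type u} [Category.{v} C] [Abelian C] {D : Graded ℚ C} {Ω G : Type} [Field Ω]
    [Group G] (F : Realisation.{v, u, w'} C Ω G) [F.Additive] (hC : Semisimple C) (hD : IsGraded D) :
    (TwistLattice F D.L → Semi F D.one → ∀ r : ℕ, r ≤ 2 → ∀ w : ℤ, OnRank r (PieceAt D (Semi F) w)) ∧
    ∀ (w : ℤ) (r : ℕ), 3 ≤ r →
      (OnRank r (PieceAt D (Semi F) w) ↔ OnAll True (PieceAt D (Semi F) w)) ∧
      (OnRank r (PieceAt D (Semi F) w) → QuestionIn D F w) ∧
      (Devissage ℚ → QuestionIn D F w → OnRank r (PieceAt D (Semi F) w)) := by
  have hQ : Fac (Semi F) := {
    zero := fun _ hA => semi_zero F hA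
    sum := fun _ _ hA hB => semi_sum F hA hB
    summand := fun _ _ s r h hB => semi_summand F s r h hB }
  refine ⟨fun hF unit r hr w => ?_, fun w r hr =>
    piece_iff Pool.Agent.Q193.LT.frac_rat hC hD hQ w hr⟩
  exact Pool.Agent.H55.TH.on_rank (clo_piece hC hD hQ w)
    (Pool.Agent.H51.TH.spaces_8f F hC hD hF unit w) hr

end Pool.Agent.Results.MP_8f1292_ag.RankThreeMatrices
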