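import Pool.Agent.H61.LS.Conv

/-!
# Semisimplicity from the Tate classes of single codimensions

Let `X` and `Z` be smooth projective varieties over `ℚ` (varieties over a number field can be
replaced by their Weil restrictions), `dim X > 0`, let `ℓ` be a prime, and let `β` be the total
Betti number of `Z`. A Tate class is a class which is fixed, up to the twist, by a subgroup of
finite index of the Galois group. For a variety `Y` and an integer `j` let `t(Y, j)` be the dimension
of the space of the Tate classes of codimension `j`, and `r(Y, j)` the rank of the intersection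
pairing between the Tate classes of the codimensions `j` and `dim Y - j`. Codimensions on
`Z × X^n` at bounded distance from `n dim X / 2` are called near the middle.

* Either the representations of the Galois group on `H^i(X^n)` are semisimple for all `i` and `n`,
  or for **every** `Z` the quotients `r(Z × X^n, j) / t(Z × X^n, j)` tend to zero, uniformly for all
  codimensions `j` near the middle. So the semisimplicity of all these representations follows if
  for one `Z` (for example a point), one `ε > 0` and infinitely many `n` there is **one single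
  codimension** `j` near the middle with `r(Z × X^n, j) > ε t(Z × X^n, j)`.
* If the representations on all `H^i(X^n)` are semisimple (for instance if `X` is an abelian
  variety), there is an integer `1 ≤ w ≤ β` such that `r(Z × X^n, i_n) / t(X^n, j_n)` tends to `w` for
  all sequences of codimensions `i_n`, `j_n` near the middle; and either the pairing is nondegenerate
  on all Tate classes on all `Z × X^n`, or `w ≤ β - 2` and for every `ε > 0` and all large `n` we
  have `r(Z × X^n, j) ≤ (1 - 1 / (β - 1) + ε) t(Z × X^n, j)` for all `j` near the middle. The former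
  holds if the representations on all `H^i(Z × X^n)` are semisimple.

The theorem is proved for every Weil cohomology theory with the action of a group such that the
whole group acts on the cohomology of the products of copies of `X` compatibly with the
projections, and such that every stable line in such a cohomology space is spanned by a Tate class:
for the group `Gal(ℚ)` and the coefficients `ℚ_ℓ` this is a theorem on Hodge-Tate characters.
-/

set_option autoImplicit false

open CategoryTheory AlgebraicGeometry Filter Topology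

universe u w

namespace Pool.Agent.Results.MP_8f1292_ag.SemisimpleFromOneCodimension

open Module
open Pool.Agent.H914 Pool.Agent.H914.VarClass Pool.Agent.H914.VarClass.Obj
  Pool.Agent.H914.WeilCohomology Pool.Agent.H61.GX Pool.Agent.H61.LS
open Pool.Agent.H61
open Pool.Agent.H61.ZX (RatioTendsTo)
open Pool.Agent.Y133.Half (pw algSys)
open Pool.Agent.Y163 (Big)
open Pool.Agent.Q55 (GaloisAction tatePred)
open Pool.Agent.Q60.TD (SemisimpleAt)
open Pool.Agent.Q57.SS (DefinedOverBase LinesAreTate TateNondegenerate num_of_nondeg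
  nondeg_of_semisimple semisimple_pw tateNondeg_of_num)

variable {k : Type u} [Field k] {𝒱 : VarClass k} {ops : CycleOps 𝒱}
  {W : WeilCohomology.{u, 0} ops} {Γ : Type w} [Group Γ]

/-- **Semisimplicity and the Tate classes of single codimensions.** `pw X n` is the product of
`n + 1` copies of `X`. -/
theorem result (G : GaloisAction W Γ) (X Z : 𝒱.Obj) (hd : 0 < X.dim) (hX : DefinedOverBase G X)
    (hL : LinesAreTate G X) (hDX : ∃ D, X.IsCyc 1 D ∧ Big ops X D)
    (hDZ : ∃ D, Z.IsCyc 1 D ∧ Big ops Z D) :
    -- the zero-one law in single codimensions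
    ((∀ n i, SemisimpleAt G (pw X n) i) ∨
      ∀ (J : ℕ) (ε : ℝ), 0 < ε → ∃ n₀ : ℕ, ∀ n ≥ n₀, ∀ j : ℕ,
        |2 * (j : ℤ) - (n + 1) * X.dim| ≤ J →
          (pairingRankIn G (Z.prod (pw X n)) j : ℝ) ≤ ε * LS.tateDimIn G (Z.prod (pw X n)) j) ∧
    -- the limits and the gap, if the representations on the powers of `X` are semisimple
    ((∀ n i, SemisimpleAt G (pw X n) i) → ∃ w : ℕ, 1 ≤ w ∧ w ≤ finrank W.K (W.H Z) ∧
      (∀ i j : ℕ → ℕ, NearMiddle X i → NearMiddle X j →
        RatioTendsTo (fun n => pairingRankIn G (Z.prod (pw X n)) (i n))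
          (fun n => LS.tateDimIn G (pw X n) (j n)) (w : ℝ)) ∧
      ((∀ n, TateNondegenerate G (Z.prod (pw X n))) ∨ (w + 2 ≤ finrank W.K (W.H Z) ∧
        ∀ (J : ℕ) (ε : ℝ), 0 < ε → ∃ n₀ : ℕ, ∀ n ≥ n₀, ∀ j : ℕ,
          |2 * (j : ℤ) - (n + 1) * X.dim| ≤ J →
            (pairingRankIn G (Z.prod (pw X n)) j : ℝ) ≤
              (1 - 1 / ((finrank W.K (W.H Z) : ℝ) - 1) + ε) *
                LS.tateDimIn G (Z.prod (pw X n)) j))) ∧
    -- semisimplicity implies nondegeneracy
    (∀ n, (∀ i, SemisimpleAt G (Z.prod (pw X n)) i) → TateNondegenerate G (Z.prod (pw X n))) := by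
  obtain ⟨D, hD, hD'⟩ := hDX
  obtain ⟨E, hE, hE'⟩ := hDZ
  have htr : W.tr X (W.cl X D ^ X.dim) ≠ 0 := hD'.tr hD
  have htrZ : W.tr Z (W.cl Z E ^ Z.dim) ≠ 0 := hE'.tr hE
  set S := (tatePred G).sys with hSdef
  have hgr : SGr S := sgr_tatePred G
  have hS : GBig S X := gbig_of_par S (par_mem G X) hd (alg_le_tatePred G) hD htr
  have hZ1 : (1 : W.H Z) ≠ 0 := by
    intro h1
    apply htrZ
    have h2 : W.cl Z E ^ Z.dim = 1 * W.cl Z E ^ Z.dim := (one_mul _).symm
    rw [h2, h1, zero_mul, map_zero]
  have hpt : ∃ l ∈ GC S Z Z.dim, W.tr Z l = 1 := by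
    obtain ⟨l, hl, hl1⟩ := alg_pt hE htrZ
    exact ⟨l, GC_mono (alg_le_tatePred G) _ _ hl, hl1⟩
  have hrank : ∀ (n j : ℕ), j ≤ (Z.prod (pw X n)).dim →
      pairingRankIn G (Z.prod (pw X n)) j =
        ag S (Z.prod (pw X n)) j (Z.dim + (n + 1) * X.dim - j) := by
    intro n j hj
    rw [pairingRankIn_eq hj]
    congr 1
    rw [dim_prod, GX.dim_pw]
    push_cast
    ring
  refine ⟨?_, ?_, ?_⟩
  · by_cases hN : ∀ n, S.Num (pw X n) = ⊥
    · exact Or.inl fun n i => semisimple_pw hX hL hN n i
    right
    intro J ε hε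
    obtain ⟨N, hN'⟩ := exists_nat_gt (1 / ε)
    obtain ⟨n₀, hn₀⟩ := gzero_law hgr hS hZ1 hN N J
    refine ⟨max n₀ J, fun n hn j hj => ?_⟩
    have hjd := le_of_near (Z := Z) hd ((le_max_right _ _).trans hn) hj
    have h1 := hn₀ n ((le_max_left _ _).trans hn) j (Z.dim + (n + 1) * X.dim - j) (by ring) hj
    rw [hrank n j hjd, LS.tateDimIn_eq]
    have h2 : ((N : ℝ) * ag S (Z.prod (pw X n)) j (Z.dim + (n + 1) * X.dim - j)) ≤
        finrank W.K (GC S (Z.prod (pw X n)) j) := by exact_mod_cast h1
    have h3 : (0 : ℝ) ≤ ag S (Z.prod (pw X n)) j (Z.dim + (n + 1) * X.dim - j) :=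
      Nat.cast_nonneg _
    have h4 : 1 ≤ ε * N := by
      rw [div_lt_iff₀ hε] at hN'
      linarith
    calc (ag S (Z.prod (pw X n)) j (Z.dim + (n + 1) * X.dim - j) : ℝ)
        ≤ (ε * N) * ag S (Z.prod (pw X n)) j (Z.dim + (n + 1) * X.dim - j) :=
          le_mul_of_one_le_left h3 h4
      _ = ε * (N * ag S (Z.prod (pw X n)) j (Z.dim + (n + 1) * X.dim - j)) := by ring
      _ ≤ _ := mul_le_mul_of_nonneg_left h2 hε.le
  · intro hss
    have hN : ∀ n, S.Num (pw X n) = ⊥ := fun n => num_of_nondeg (nondeg_of_semisimple (hss n))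
    obtain ⟨w, hw1, hw2, a1, a2, h⟩ := glimit_gap hgr hS hN hpt
    have hν : ∀ n, nrmg S X n ≠ 0 := fun n => (nrmg_pos hS n).ne'
    refine ⟨w, hw1, hw2, fun i j hi hj => ?_, ?_⟩
    · have h1 := (a1.tendsto (nrmg_pos hS) hi).div (a2.tendsto (nrmg_pos hS) hj) one_ne_zero
      rw [div_one] at h1
      refine h1.congr' ?_
      obtain ⟨n₀, hn₀⟩ := hi.le hd
      filter_upwards [eventually_ge_atTop n₀] with n hn
      rw [Pi.div_apply, div_div_div_cancel_right₀ (hν n), LS.tateDimIn_eq, hrank]
      rw [dim_prod, GX.dim_pw]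
      exact (hn₀ n hn).trans (Nat.le_add_left _ _)
    · rcases h with h | ⟨h1, h2⟩
      · exact Or.inl fun n => tateNondeg_of_num (h n)
      · refine Or.inr ⟨h1, fun J ε hε => ?_⟩
        obtain ⟨n₀, hn₀⟩ := h2 ε hε J
        refine ⟨max n₀ J, fun n hn j hj => ?_⟩
        have hjd := le_of_near (Z := Z) hd ((le_max_right _ _).trans hn) hj
        rw [hrank n j hjd, LS.tateDimIn_eq]
        exact hn₀ n ((le_max_left _ _).trans hn) j hj
  · exact fun n h => nondeg_of_semisimple h

end Pool.Agent.Results.MP_8f1292_ag.SemisimpleFromOneCodimension
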