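import Pool.Agent.H81.RZ.Cell2
import Pool.Agent.H55.TH.Thin
import Pool.Agent.H51.TH.Spaces
import Pool.Graph.R_pool_sql_team_seeded_1acbe0a2.Y691.TU.Sem

/-!
# The semisimplicity conjecture and thin Schubert cells of lines and planes

Let `p` be a prime number. A smooth projective variety over a number field is a smooth projective scheme
over `ℚ`, and its cohomology as a representation of the absolute Galois group of `ℚ` is induced; so
question Q1 for all number fields is the question for `ℚ`.

Let `C` be the category of motives over `ℚ` for absolute Hodge cycles, which is abelian and semisimple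
(Deligne), and `F` its `p`-adic realisation, with values in the representations over `Ω = ℚ_p` of the
absolute Galois group `G` of `ℚ`. For a separated scheme `X` of finite type over `ℚ` let
`D.H X w j = gr^W_w H^j_c(X)`, an object of `C` (Deligne, Jannsen). For smooth projective `X` this is
`H^j(X)` for `w = j` and zero for `w ≠ j`.

The thin Schubert cell of a set `B` of three-element subsets of the set of columns consists of the
matrices `(1 | A)` with three rows over `ℚ`, whose maximal minors with the columns in `B` are different
from zero, while all the other maximal minors are zero. It is a stratum of the Grassmannian `Gr(3, 3 + n)`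
in its stratification by the matroids of the subspaces (Gelfand, Goresky, MacPherson, Serganova), and it
is empty if `B` is not the set of bases of a matroid.

`Thinr ℚ 2 B` is the same for the matrices `(1 | A)` with two rows, and the Grassmannians `Gr(2, 2 + n)`.

**Theorem.** (1) The representations `gr^W_w H^j_c(X)` are semisimple for all `w` and `j` and all thin
Schubert cells `X` of the Grassmannians `Gr(2, 2 + n)`. (2) Let `w` be an integer. The following are
equivalent: the representations `gr^W_w H^j_c(X)`
of the one weight `w` are semisimple for all `j` and all separated schemes `X` of finite type over `ℚ`;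
they are semisimple for all `j` and all thin Schubert cells of the Grassmannians `Gr(3, 3 + n)`. Then the
cohomology `H^w(X)` of the one degree `w` is semisimple for all smooth projective varieties `X`; the
converse is true by resolution of singularities, used in the form `Devissage`.

In (2) neither the Tate twist nor the cohomology of affine bundles is used, and so the degree `w` is fixed
in all the statements. (1) is proved by building the cells one coordinate at a time
(`Pool.Agent.H55.TH.elim_add`); it uses that the realisation of the unit motive is semisimple and that the
Tate twist does not change the subrepresentations (`TwistLattice`).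
-/

set_option autoImplicit false

open CategoryTheory CategoryTheory.Limits AlgebraicGeometry Pool.Agent.Y116.UV
  Pool.Agent.Y101.Th Pool.Agent.Y691.TU Pool.Agent.Z125.UN Pool.Agent.H81.RZ
  Pool.Agent.H55.TH

namespace Pool.Agent.Results.MP_8f1292_ag.ThinSchubertCells

universe v u w'

/-- The realisation of the motive `A` is semisimple. -/
def Semi {C : Type u} [Category.{v} C] {Ω G : Type} [Field Ω] [Group G]
    (F : Realisation.{v, u, w'} C Ω G) (A : C) : Prop :=
  IsSemisimpleModule (MonoidAlgebra Ω G) (F.obj A)

/-- The cohomology of degree `w` of all smooth projective schemes over `ℚ` is semisimple. -/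
def QuestionIn {C : Type u} [Category.{v} C] (D : Graded ℚ C) {Ω G : Type} [Field Ω] [Group G]
    (F : Realisation.{v, u, w'} C Ω G) (w : ℤ) : Prop :=
  ∀ X : Sch ℚ, SmProj X → Semi F (D.H X w w)

/-- **The semisimplicity conjecture and thin Schubert cells: `Gr(2, 2 + n)` and `Gr(3, 3 + n)`.** See the
explanations above; `unit` is the trivial case of the unit motive. -/
theorem result {C : Type u} [Category.{v} C] [Abelian C] {D : Graded ℚ C} {Ω G : Type} [Field Ω]
    [Group G] (F : Realisation.{v, u, w'} C Ω G) [F.Additive] (hC : Semisimple C) (hD : IsGraded D) :
    (TwistLattice F D.L → Semi F D.one → ∀ w : ℤ, OnThinr 2 (PieceAt D (Semi F) w)) ∧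
    ∀ w : ℤ,
      (OnThin (PieceAt D (Semi F) w) ↔ OnAll True (PieceAt D (Semi F) w)) ∧
      (OnThin (PieceAt D (Semi F) w) → QuestionIn D F w) ∧
      (Devissage ℚ → QuestionIn D F w → OnThin (PieceAt D (Semi F) w)) := by
  have hQ : Fac (Semi F) := {
    zero := fun _ hA => semi_zero F hA
    sum := fun _ _ hA hB => semi_sum F hA hB
    summand := fun _ _ s r h hB => semi_summand F s r h hB }
  refine ⟨fun hF unit w => on_thin (clo_piece hC hD hQ w)
    (Pool.Agent.H51.TH.spaces_8f F hC hD hF unit w), fun w => ?_⟩
  have h0 := piece_iff Pool.Agent.Q193.LT.frac_rat hC hD hQ w (r := 3) le_rfl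
  have h1 := clo_thin Pool.Agent.Q193.LT.frac_rat (clo_piece hC hD hQ w)
  exact ⟨h1.symm, fun h => h0.2.1 (h0.1.mpr (h1.mpr h)),
    fun hd h => h1.mp (h0.1.mp (h0.2.2 hd h))⟩

end Pool.Agent.Results.MP_8f1292_ag.ThinSchubertCells
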